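import Pool.Agent.H73.CBE.Stmts

/-!
Board `cbe`, row VAR (helper80): variation along a geodesic
-/

set_option autoImplicit false

open Set Filter Topology

namespace Pool.CBE

private theorem var_path (n d : ℕ) (f : E n → E n) (C : ℝ) (hC : 0 ≤ C) (hf : ContDiff ℂ 2 f)
    (hb : ∀ z v : E n, ‖z‖ = 1 → (inner ℂ z v : ℂ) = 0 →
      ‖fderiv ℂ f z v‖ ≤ C * √(d : ℝ) * ‖v‖)
    (x y : E n) (hx : ‖x‖ = 1) (hy : ‖y‖ = 1) (hxy : (inner ℂ x y : ℂ) = 0) (θ : ℝ) (hθ : 0 ≤ θ) :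
    ‖f (((Real.cos θ : ℝ) : ℂ) • x + ((Real.sin θ : ℝ) : ℂ) • y) - f x‖ ≤
      C * √(d : ℝ) * θ := by
  have hyx : (inner ℂ y x : ℂ) = 0 := inner_eq_zero_symm.1 hxy
  have hxx : (inner ℂ x x : ℂ) = 1 := by
    rw [inner_self_eq_norm_sq_to_K, hx]
    norm_num
  have hyy : (inner ℂ y y : ℂ) = 1 := by
    rw [inner_self_eq_norm_sq_to_K, hy]
    norm_num
  obtain ⟨γ, hγ⟩ : ∃ γ : ℝ → E n,
      ∀ t, γ t = ((Real.cos t : ℝ) : ℂ) • x + ((Real.sin t : ℝ) : ℂ) • y := ⟨_, fun _ => rfl⟩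
  obtain ⟨γ', hγ'⟩ : ∃ γ' : ℝ → E n,
      ∀ t, γ' t = ((-Real.sin t : ℝ) : ℂ) • x + ((Real.cos t : ℝ) : ℂ) • y := ⟨_, fun _ => rfl⟩
  have hd : ∀ t, HasDerivAt γ (γ' t) t := by
    intro t
    have h1 : HasDerivAt (fun t : ℝ => ((Real.cos t : ℝ) : ℂ)) ((-Real.sin t : ℝ) : ℂ) t :=
      (Real.hasDerivAt_cos t).ofReal_comp
    have h2 : HasDerivAt (fun t : ℝ => ((Real.sin t : ℝ) : ℂ)) ((Real.cos t : ℝ) : ℂ) t :=
      (Real.hasDerivAt_sin t).ofReal_comp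
    have h3 := (h1.smul_const x).add (h2.smul_const y)
    have h4 : γ = (fun t : ℝ => ((Real.cos t : ℝ) : ℂ) • x) +
        fun t : ℝ => ((Real.sin t : ℝ) : ℂ) • y := by
      funext t
      rw [hγ]
      rfl
    rw [h4, hγ']
    exact h3
  have hn : ∀ t, ‖γ t‖ = 1 := by
    intro t
    have h1 : (inner ℂ (((Real.cos t : ℝ) : ℂ) • x) (((Real.sin t : ℝ) : ℂ) • y) : ℂ) = 0 := by
      rw [inner_smul_left, inner_smul_right, hxy]
      simp
    have h2 := norm_add_sq_eq_norm_sq_add_norm_sq_of_inner_eq_zero _ _ h1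
    rw [← hγ, norm_smul, norm_smul, hx, hy, mul_one, mul_one, Complex.norm_real,
      Complex.norm_real, Real.norm_eq_abs, Real.norm_eq_abs, abs_mul_abs_self,
      abs_mul_abs_self] at h2
    have h3 := Real.sin_sq_add_cos_sq t
    have h4 : ‖γ t‖ * ‖γ t‖ = 1 := by nlinarith
    have h5 : 0 ≤ ‖γ t‖ := norm_nonneg _
    nlinarith
  have hn' : ∀ t, ‖γ' t‖ = 1 := by
    intro t
    have h1 : (inner ℂ (((-Real.sin t : ℝ) : ℂ) • x) (((Real.cos t : ℝ) : ℂ) • y) : ℂ) = 0 := by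
      rw [inner_smul_left, inner_smul_right, hxy]
      simp
    have h2 := norm_add_sq_eq_norm_sq_add_norm_sq_of_inner_eq_zero _ _ h1
    rw [← hγ', norm_smul, norm_smul, hx, hy, mul_one, mul_one, Complex.norm_real,
      Complex.norm_real, Real.norm_eq_abs, Real.norm_eq_abs, abs_mul_abs_self,
      abs_mul_abs_self] at h2
    have h3 := Real.sin_sq_add_cos_sq t
    have h4 : ‖γ' t‖ * ‖γ' t‖ = 1 := by nlinarith
    have h5 : 0 ≤ ‖γ' t‖ := norm_nonneg _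
    nlinarith
  have hi : ∀ t, (inner ℂ (γ t) (γ' t) : ℂ) = 0 := by
    intro t
    rw [hγ, hγ', inner_add_left, inner_add_right, inner_add_right]
    simp only [inner_smul_left, inner_smul_right, hxx, hyy, hxy, hyx, Complex.conj_ofReal,
      Complex.ofReal_neg]
    ring
  have hD : ∀ t, HasDerivAt (fun t => f (γ t)) (fderiv ℂ f (γ t) (γ' t)) t := by
    intro t
    have h1 : HasFDerivAt f (fderiv ℂ f (γ t)) (γ t) :=
      (hf.differentiable (by norm_num) (γ t)).hasFDerivAt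
    exact (h1.restrictScalars ℝ).comp_hasDerivAt t (hd t)
  have hmv := norm_image_sub_le_of_norm_deriv_le_segment' (f := fun t => f (γ t))
    (f' := fun t => fderiv ℂ f (γ t) (γ' t)) (C := C * √(d : ℝ)) (a := 0) (b := θ)
    (fun t _ => (hD t).hasDerivWithinAt) (fun t _ => by
      have h1 := hb (γ t) (γ' t) (hn t) (hi t)
      rw [hn' t, mul_one] at h1
      exact h1) θ ⟨hθ, le_rfl⟩
  have hγ0 : γ 0 = x := by
    rw [hγ]
    simp
  simp only [hγ0, sub_zero] at hmv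
  rw [hγ] at hmv
  exact hmv

theorem VAR_thm (hPER : PERStmt) (hDLB : DLBStmt) : VARStmt := by
  intro n d f C hd hC hf hhom hb x z hx hz
  obtain ⟨hp1, -, -, hp4, -, -⟩ := hPER
  have hx0 : x ≠ 0 := by
    intro h
    rw [h, norm_zero] at hx
    norm_num at hx
  obtain ⟨μ, hμ, hμc⟩ := RCLike.exists_norm_eq_mul_self (inner ℂ x z : ℂ)
  obtain ⟨z', hz'⟩ : ∃ z' : E n, z' = μ • z := ⟨_, rfl⟩
  have hz'n : ‖z'‖ = 1 := by rw [hz', norm_smul, hμ, hz, one_mul]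
  have hin : (inner ℂ x z' : ℂ) = ((‖(inner ℂ x z : ℂ)‖ : ℝ) : ℂ) := by
    rw [hz', inner_smul_right]
    exact hμc.symm
  have hfz : ‖f z'‖ = ‖f z‖ := by
    rw [hz', hhom, norm_smul, norm_pow, hμ, one_pow, one_mul]
  have hdl : dl x z' = dl x z := by
    unfold dl
    rw [hz', (hp4 n x z z μ).2, norm_smul, hμ, one_mul]
  rw [← hfz, ← hdl]
  obtain ⟨c, hc⟩ : ∃ c : ℝ, c = ‖(inner ℂ x z : ℂ)‖ := ⟨_, rfl⟩
  have hc0 : 0 ≤ c := by
    rw [hc]
    exact norm_nonneg _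
  rw [← hc] at hin
  obtain ⟨hδ2, -, hδ0, hδ1, -⟩ := hDLB n x z' hx hz'n
  have hperp : perp x z' = z' - (c : ℂ) • x := by
    unfold perp
    rw [hin, hx]
    simp
  obtain ⟨δ, hδ⟩ : ∃ δ : ℝ, δ = dl x z' := ⟨_, rfl⟩
  rw [← hδ] at hδ2 hδ0 hδ1 ⊢
  have hδn : ‖perp x z'‖ = δ := by
    rw [hδ]
    rfl
  have hcs : δ ^ 2 = 1 - c ^ 2 := by
    rw [hδ2, hin, Complex.norm_real, Real.norm_eq_abs, sq_abs]
  have hCd : 0 ≤ C * √(d : ℝ) := mul_nonneg hC (Real.sqrt_nonneg _)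
  rcases eq_or_lt_of_le hδ0 with h0 | hpos
  · -- the same line
    have h1 : c = 1 := by
      rw [← h0] at hcs
      nlinarith
    have h2 : perp x z' = 0 := by
      rw [← norm_eq_zero, hδn, h0]
    rw [hperp, h1, sub_eq_zero] at h2
    rw [h2, Complex.ofReal_one, one_smul]
    rw [← h0]
    linarith
  · obtain ⟨y, hy⟩ : ∃ y : E n, y = ((δ⁻¹ : ℝ) : ℂ) • perp x z' := ⟨_, rfl⟩
    have hyn : ‖y‖ = 1 := by
      rw [hy, norm_smul, hδn, Complex.norm_real, Real.norm_eq_abs, abs_of_pos (inv_pos.2 hpos)]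
      exact inv_mul_cancel₀ hpos.ne'
    have hxy : (inner ℂ x y : ℂ) = 0 := by
      rw [hy, inner_smul_right, hp1 n x z' hx0, mul_zero]
    have hzy : z' = (c : ℂ) • x + (δ : ℂ) • y := by
      rw [hy, smul_smul, ← Complex.ofReal_mul, mul_inv_cancel₀ hpos.ne', Complex.ofReal_one,
        one_smul, hperp]
      abel
    have hsin : Real.sin (Real.arcsin δ) = δ := Real.sin_arcsin (by linarith) hδ1
    have hcos : Real.cos (Real.arcsin δ) = c := by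
      rw [Real.cos_arcsin, hcs]
      have h1 : 1 - (1 - c ^ 2) = c ^ 2 := by ring
      rw [h1, Real.sqrt_sq hc0]
    have hθ0 : 0 ≤ Real.arcsin δ := Real.arcsin_nonneg.2 hδ0
    have hθ1 : Real.arcsin δ ≤ Real.pi / 2 := Real.arcsin_le_pi_div_two δ
    have hθ2 : Real.arcsin δ ≤ 2 * δ := by
      have h1 := Real.mul_le_sin hθ0 hθ1
      rw [hsin] at h1
      have h2 : Real.pi ≤ 4 := Real.pi_le_four
      have h3 : 0 < Real.pi := Real.pi_pos
      have h4 : 2 / Real.pi * Real.arcsin δ = 2 * Real.arcsin δ / Real.pi := by ring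
      rw [h4, div_le_iff₀ h3] at h1
      nlinarith
    have hpath := var_path n d f C hC hf hb x y hx hyn hxy (Real.arcsin δ) hθ0
    rw [hsin, hcos, ← hzy] at hpath
    have h1 : ‖f x‖ ≤ ‖f z'‖ + ‖f z' - f x‖ := by
      have h2 : f x = f z' - (f z' - f x) := by abel
      calc ‖f x‖ = ‖f z' - (f z' - f x)‖ := by rw [← h2]
        _ ≤ ‖f z'‖ + ‖f z' - f x‖ := norm_sub_le _ _
    have h3 : C * √(d : ℝ) * Real.arcsin δ ≤ C * √(d : ℝ) * (2 * δ) :=
      mul_le_mul_of_nonneg_left hθ2 hCd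
    have h4 : C * √(d : ℝ) * (2 * δ) = 2 * C * √(d : ℝ) * δ := by ring
    linarith

end Pool.CBE
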